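import Pool.Agent.Helper35.SHQ.Sheet

/-! Row PRE (MP_0dfa80_co, project SHQ): a prefix code. -/

set_option autoImplicit false

namespace SHQ
open scoped ENNReal
open Filter Topology

theorem st_PRE : ST_PRE := by
  classical
  intro z ι pre Q P hpre hQ
  unfold Sg
  have h1 : ∀ i, z ^ (pre i).length * ∑' x : W, {x | Q i x}.indicator (fun x => z ^ x.length) x =
      ∑' x : W, z ^ (pre i).length * {x | Q i x}.indicator (fun x => z ^ x.length) x :=
    fun i => ENNReal.tsum_mul_left.symm
  rw [tsum_congr h1]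
  have h2 := ENNReal.tsum_prod (f := fun (i : ι) (x : W) =>
    z ^ (pre i).length * {x | Q i x}.indicator (fun x => z ^ x.length) x)
  rw [← h2]
  have hinj : Function.Injective (fun p : ι × W => pre p.1 ++ p.2) := by
    rintro ⟨i, x⟩ ⟨j, x'⟩ h
    have h3 : i = j := hpre i j x x' h
    subst h3
    have h4 : x = x' := List.append_cancel_left h
    rw [h4]
  refine le_trans (ENNReal.tsum_le_tsum (g := fun p : ι × W =>
    {x | P x}.indicator (fun x : W => z ^ x.length) (pre p.1 ++ p.2)) fun p => ?_)
    (ENNReal.tsum_comp_le_tsum_of_injective hinj _)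
  by_cases h : Q p.1 p.2
  · have h5 : p.2 ∈ {x | Q p.1 x} := h
    have h6 : pre p.1 ++ p.2 ∈ {x | P x} := hQ _ _ h
    rw [Set.indicator_of_mem h5, Set.indicator_of_mem h6, List.length_append, pow_add]
  · have h5 : p.2 ∉ {x | Q p.1 x} := h
    rw [Set.indicator_of_notMem h5, mul_zero]
    exact zero_le

end SHQ

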